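import Mathlib

/-! Infinite monochromatic exponential sets: the van der Waerden theorem with differences in an
IP set, minimal subshifts, and a point with simultaneous returns. -/

set_option autoImplicit false

namespace Pool.Agent.Y351.ExpIP

open Combinatorics Set

/-- Van der Waerden's theorem with differences in an IP set. -/
theorem ip_vdw {κ : Type} [Finite κ] (χ : ℕ → κ) (a : Stream' ℕ) (D : Finset ℕ) :
    ∃ i m : ℕ, m ∈ Hindman.FS a ∧ ∃ c, ∀ d ∈ D, χ (i + m * d) = c := by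
  classical
  obtain ⟨ι, inst, hι⟩ := Line.exists_mono_in_high_dimension D κ
  let e : ι → ℕ := fun i => (Fintype.equivFin ι i : ℕ)
  have he : Function.Injective e := by
    intro x y h
    exact (Fintype.equivFin ι).injective (Fin.ext h)
  specialize hι fun v => χ (∑ i, a.get (e i) * (v i : ℕ))
  obtain ⟨l, c, hl⟩ := hι
  set s : Finset ι := {i | l.idxFun i = none} with hs
  have hsne : s.Nonempty := by
    obtain ⟨i, hi⟩ := l.proper
    exact ⟨i, by rw [hs, Finset.mem_filter]; exact ⟨Finset.mem_univ _, hi⟩⟩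
  refine ⟨∑ i ∈ sᶜ, a.get (e i) * ((l.idxFun i).map (fun m => (m : ℕ))).getD 0,
    ∑ i ∈ s, a.get (e i), ?_, c, ?_⟩
  · have h1 : ∑ i ∈ s, a.get (e i) = ∑ j ∈ s.image e, a.get j := by
      rw [Finset.sum_image (fun x _ y _ h => he h)]
    rw [h1]
    exact Hindman.FS.finsetSum a (s.image e) (hsne.image e)
  · intro x xs
    rw [← hl ⟨x, xs⟩]
    clear hl; congr
    rw [← Finset.sum_add_sum_compl s, add_comm, Finset.sum_mul]
    congr 1
    · apply Finset.sum_congr rfl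
      intro i hi
      rw [hs, Finset.mem_filter] at hi
      rw [l.apply_none _ _ hi.right]
    · apply Finset.sum_congr rfl
      intro i hi
      rw [hs, Finset.compl_filter, Finset.mem_filter] at hi
      obtain ⟨y, hy⟩ := Option.ne_none_iff_exists.mp hi.right
      simp [← hy, Option.map_some, Option.getD]

section shift

variable {κ : Type} [TopologicalSpace κ] [DiscreteTopology κ] [Finite κ]

/-- The shift on sequences. -/
def sh (t : ℕ) (Z : ℕ → κ) : ℕ → κ := fun s => Z (s + t)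

omit [DiscreteTopology κ] [Finite κ] in
theorem continuous_sh (t : ℕ) : Continuous (sh t : (ℕ → κ) → (ℕ → κ)) :=
  continuous_pi fun s => continuous_apply (s + t)

omit [TopologicalSpace κ] [DiscreteTopology κ] [Finite κ] in
theorem sh_sh (t u : ℕ) (Z : ℕ → κ) : sh t (sh u Z) = sh (t + u) Z := by
  funext s
  simp [sh, add_assoc]

omit [TopologicalSpace κ] [DiscreteTopology κ] [Finite κ] in
theorem sh_zero (Z : ℕ → κ) : sh 0 Z = Z := by
  funext s; simp [sh]

/-- Nonempty closed shift-invariant sets. -/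
def Inv (K : Set (ℕ → κ)) : Prop :=
  IsClosed K ∧ K.Nonempty ∧ ∀ t, ∀ Z ∈ K, sh t Z ∈ K

omit [DiscreteTopology κ] [Finite κ] in
theorem inv_closure (F : ℕ → κ) : Inv (closure (range fun t => sh t F)) := by
  refine ⟨isClosed_closure, ⟨_, subset_closure ⟨0, rfl⟩⟩, ?_⟩
  intro t Z hZ
  refine map_mem_closure (continuous_sh t) hZ ?_
  rintro _ ⟨u, rfl⟩
  exact ⟨t + u, (sh_sh t u F).symm⟩

theorem exists_minimal (F : ℕ → κ) :
    ∃ K : Set (ℕ → κ), K ⊆ closure (range fun t => sh t F) ∧ Inv K ∧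
      ∀ K', Inv K' → K' ⊆ K → K ⊆ K' := by
  have H : ∀ c ⊆ {K : Set (ℕ → κ) | Inv K}, IsChain (· ⊆ ·) c → c.Nonempty →
      ∃ lb ∈ {K : Set (ℕ → κ) | Inv K}, ∀ s ∈ c, lb ⊆ s := by
    intro c hc hchain hne
    refine ⟨⋂₀ c, ⟨isClosed_sInter fun s hs => (hc hs).1, ?_, ?_⟩, fun s hs => sInter_subset_of_mem hs⟩
    · have : Nonempty c := hne.to_subtype
      refine IsCompact.nonempty_sInter_of_directed_nonempty_isCompact_isClosed ?_
        (fun U hU => (hc hU).2.1) (fun U hU => (hc hU).1.isCompact) (fun U hU => (hc hU).1)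
      intro x hx y hy
      rcases hchain.total hx hy with h | h
      · exact ⟨x, hx, subset_rfl, h⟩
      · exact ⟨y, hy, h, subset_rfl⟩
    · intro t Z hZ s hs
      exact (hc hs).2.2 t Z (hZ s hs)
  obtain ⟨K, hK1, hK2⟩ := zorn_superset_nonempty {K : Set (ℕ → κ) | Inv K} H _ (inv_closure F)
  exact ⟨K, hK1, hK2.prop, fun K' h1 h2 => hK2.le_of_le h1 h2⟩

/-- In a minimal system an open set that meets `K` is visited from every point of `K` within a
finite set of times. -/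
theorem finite_return {K : Set (ℕ → κ)} (hK : Inv K) (hmin : ∀ K', Inv K' → K' ⊆ K → K ⊆ K')
    {U : Set (ℕ → κ)} (hU : IsOpen U) (hne : (K ∩ U).Nonempty) :
    ∃ s : Finset ℕ, ∀ Z ∈ K, ∃ t ∈ s, sh t Z ∈ U := by
  have hcov : K ⊆ ⋃ t : ℕ, (sh t) ⁻¹' U := by
    by_contra hcon
    rw [Set.not_subset] at hcon
    obtain ⟨Z0, hZ0, hZ0'⟩ := hcon
    have hInv : Inv (K ∩ {Z | ∀ t, sh t Z ∉ U}) := by
      refine ⟨hK.1.inter ?_, ⟨Z0, hZ0, ?_⟩, ?_⟩
      · have : {Z : ℕ → κ | ∀ t, sh t Z ∉ U} = ⋂ t, (sh t) ⁻¹' Uᶜ := by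
          ext Z; simp
        rw [this]
        exact isClosed_iInter fun t => hU.isClosed_compl.preimage (continuous_sh t)
      · intro t ht
        exact hZ0' (mem_iUnion.mpr ⟨t, ht⟩)
      · intro t Z hZ
        refine ⟨hK.2.2 t Z hZ.1, fun u hu => ?_⟩
        rw [sh_sh] at hu
        exact hZ.2 _ hu
    obtain ⟨Y, hY1, hY2⟩ := hne
    have := (hmin _ hInv inter_subset_left hY1).2 0
    rw [sh_zero] at this
    exact this hY2
  obtain ⟨s, hs⟩ := hK.1.isCompact.elim_finite_subcover (fun t : ℕ => (sh t) ⁻¹' U)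
    (fun t => hU.preimage (continuous_sh t)) hcov
  refine ⟨s, fun Z hZ => ?_⟩
  have := hs hZ
  simp only [mem_iUnion, mem_preimage] at this
  obtain ⟨t, ht, h⟩ := this
  exact ⟨t, ht, h⟩

/-- Simultaneous returns with differences in an IP set. -/
theorem returns {K : Set (ℕ → κ)} (hK : Inv K) (hmin : ∀ K', Inv K' → K' ⊆ K → K ⊆ K')
    {U : Set (ℕ → κ)} (hU : IsOpen U) (hne : (K ∩ U).Nonempty) (a : Stream' ℕ) (D : Finset ℕ) :
    ∃ m ∈ Hindman.FS a, (K ∩ (U ∩ ⋂ d ∈ D, (sh (m * d)) ⁻¹' U)).Nonempty := by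
  classical
  obtain ⟨s, hs⟩ := finite_return hK hmin hU hne
  obtain ⟨Z0, hZ0⟩ := hK.2.1
  have hex : ∀ i : ℕ, ∃ t : s, sh (t : ℕ) (sh i Z0) ∈ U := by
    intro i
    obtain ⟨t, ht, h⟩ := hs (sh i Z0) (hK.2.2 i Z0 hZ0)
    exact ⟨⟨t, ht⟩, h⟩
  choose χ hχ using hex
  obtain ⟨i, m, hm, c, hc⟩ := ip_vdw χ a (insert 0 D)
  refine ⟨m, hm, sh ((c : ℕ) + i) Z0, hK.2.2 _ _ hZ0, ?_, ?_⟩
  · have h0 := hc 0 (Finset.mem_insert_self _ _)
    have h1 := hχ (i + m * 0)
    rw [h0, sh_sh, mul_zero, add_zero] at h1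
    exact h1
  · simp only [mem_iInter, mem_preimage]
    intro d hd
    have h0 := hc d (Finset.mem_insert_of_mem hd)
    have h1 := hχ (i + m * d)
    rw [h0, sh_sh] at h1
    rw [sh_sh]
    have : m * d + ((c : ℕ) + i) = (c : ℕ) + (i + m * d) := by ring
    rw [this]
    exact h1

/-- Dependent choice. -/
theorem dep_choice {S : Type} (U0 : S) (R : ℕ → S → S → Prop)
    (h : ∀ n U, ∃ U', R n U U') : ∃ V : ℕ → S, V 0 = U0 ∧ ∀ n, R n (V n) (V (n + 1)) := by
  choose f hf using h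
  exact ⟨fun n => Nat.rec U0 (fun n U => f n U) n, rfl, fun n => hf n _⟩

/-- One step of the construction of a point with simultaneous returns. -/
theorem one_step {K : Set (ℕ → κ)} (hK : Inv K) (hmin : ∀ K', Inv K' → K' ⊆ K → K ⊆ K')
    (P : Set ℕ) (hP : ∃ a : Stream' ℕ, Hindman.FS a ⊆ P) (n : ℕ)
    (U : Set (ℕ → κ)) (hU : IsClopen U) (hne : (K ∩ U).Nonempty) :
    ∃ U' : Set (ℕ → κ), IsClopen U' ∧ (K ∩ U').Nonempty ∧ U' ⊆ U ∧
      ∃ m ∈ P, ∀ Z ∈ U', ∀ i ≤ n, sh (m * 2 ^ i) Z ∈ U := by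
  classical
  obtain ⟨a, ha⟩ := hP
  obtain ⟨m, hm, h⟩ := returns hK hmin hU.isOpen hne a
    ((Finset.range (n + 1)).image (fun i => 2 ^ i))
  refine ⟨_, ?_, h, inter_subset_left, m, ha hm, ?_⟩
  · exact hU.inter (isClopen_biInter_finset fun d _ => hU.preimage (continuous_sh _))
  · intro Z hZ i hi
    have h2 := hZ.2
    simp only [mem_iInter, mem_preimage] at h2
    exact h2 (2 ^ i) (Finset.mem_image.mpr ⟨i, Finset.mem_range.mpr (by omega), rfl⟩)

/-- A point of the orbit closure of `F` whose value at `0` returns along dilates of elements of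
every one of countably many given IP-rich sets. -/
theorem exists_point (F : ℕ → κ) (P : ℕ → Set ℕ)
    (hP : ∀ n, ∃ a : Stream' ℕ, Hindman.FS a ⊆ P n) :
    ∃ W : ℕ → κ, (∀ n, ∃ b, ∀ s ≤ n, F (s + b) = W s) ∧
      ∀ n, ∃ m ∈ P n, ∀ i ≤ n, W (m * 2 ^ i) = W 0 := by
  classical
  obtain ⟨K, hKF, hK, hmin⟩ := exists_minimal F
  obtain ⟨Z0, hZ0⟩ := hK.2.1
  have hclop : ∀ (s : ℕ) (k : κ), IsClopen {Z : ℕ → κ | Z s = k} := fun s k =>
    (isClopen_discrete {k}).preimage (continuous_apply s)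
  obtain ⟨V, hV0, hV⟩ := dep_choice
    (S := {U : Set (ℕ → κ) // IsClopen U ∧ (K ∩ U).Nonempty})
    ⟨{Z | Z 0 = Z0 0}, hclop 0 (Z0 0), ⟨Z0, hZ0, rfl⟩⟩
    (fun n U U' => U'.1 ⊆ U.1 ∧ ∃ m ∈ P n, ∀ Z ∈ U'.1, ∀ i ≤ n, sh (m * 2 ^ i) Z ∈ U.1)
    (by
      rintro n ⟨U, hU, hne⟩
      obtain ⟨U', h1, h2, h3, h4⟩ := one_step hK hmin (P n) (hP n) n U hU hne
      exact ⟨⟨U', h1, h2⟩, h3, h4⟩)
  have hsub : ∀ n, (V (n + 1)).1 ⊆ (V n).1 := fun n => (hV n).1
  have hne : (⋂ n, K ∩ (V n).1).Nonempty := by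
    refine IsCompact.nonempty_iInter_of_sequence_nonempty_isCompact_isClosed _
      (fun n => inter_subset_inter_right _ (hsub n)) (fun n => (V n).2.2) ?_
      (fun n => hK.1.inter (V n).2.1.isClosed)
    exact (hK.1.inter (V 0).2.1.isClosed).isCompact
  obtain ⟨W, hW⟩ := hne
  rw [mem_iInter] at hW
  have hV0sub : ∀ n, (V n).1 ⊆ {Z | Z 0 = Z0 0} := by
    intro n
    induction n with
    | zero => rw [hV0]
    | succ n ih => exact (hsub n).trans ih
  have hW0 : W 0 = Z0 0 := hV0sub 0 (hW 0).2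
  refine ⟨W, ?_, ?_⟩
  · intro n
    have hWc : W ∈ closure (range fun t => sh t F) := hKF (hW 0).1
    rw [mem_closure_iff] at hWc
    obtain ⟨Y, hY1, hY2⟩ := hWc (⋂ s ∈ Finset.range (n + 1), {Z : ℕ → κ | Z s = W s})
      (isOpen_biInter_finset fun s _ => (hclop s (W s)).isOpen) (by simp)
    obtain ⟨b, rfl⟩ := hY2
    refine ⟨b, fun s hs => ?_⟩
    simp only [mem_iInter] at hY1
    exact hY1 s (Finset.mem_range.mpr (by omega))
  · intro n
    obtain ⟨m, hm, h⟩ := (hV n).2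
    refine ⟨m, hm, fun i hi => ?_⟩
    have h3 := hV0sub n (h W (hW (n + 1)).2 i hi)
    have h4 : W (0 + m * 2 ^ i) = Z0 0 := h3
    rw [hW0, ← h4, zero_add]

end shift

end Pool.Agent.Y351.ExpIP
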