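import Mathlib

/-! Type I exponential IP sets: a colouring with three colours and no monochromatic one. -/

set_option autoImplicit false

namespace Pool.Agent.Y351.ExpIP

/-- The tower `1, 2, 4, 16, ...`. -/
def tow : ℕ → ℕ
  | 0 => 1
  | n + 1 => 2 ^ tow n

theorem lt_tow (n : ℕ) : n < tow n := by
  induction n with
  | zero => exact Nat.one_pos
  | succ n ih =>
    have : tow n < 2 ^ tow n := Nat.lt_two_pow_self
    show n + 1 < 2 ^ tow n
    omega

theorem tow_lt (n : ℕ) : tow n < tow (n + 1) := Nat.lt_two_pow_self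

theorem tow_strictMono : StrictMono tow := strictMono_nat_of_lt_succ tow_lt

/-- The level of `n`: the greatest `h` with `tow h ≤ n`. -/
def level (n : ℕ) : ℕ := Nat.findGreatest (fun h => tow h ≤ n) n

theorem level_eq {n h : ℕ} (h1 : tow h ≤ n) (h2 : n < tow (h + 1)) : level n = h := by
  unfold level
  rw [Nat.findGreatest_eq_iff]
  refine ⟨?_, fun _ => h1, ?_⟩
  · exact (lt_tow h).le.trans h1
  · intro m hm _ h3
    have : tow (h + 1) ≤ tow m := tow_strictMono.monotone hm
    omega

theorem exists_level {n : ℕ} (hn : 1 ≤ n) : ∃ h, tow h ≤ n ∧ n < tow (h + 1) := by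
  refine ⟨level n, ?_, ?_⟩
  · have := Nat.findGreatest_spec (P := fun h => tow h ≤ n) (m := 0) (Nat.zero_le n) hn
    exact this
  · by_contra hcon
    have hcon : tow (level n + 1) ≤ n := not_lt.mp hcon
    have h1 : level n + 1 ≤ n := (lt_tow _).le.trans hcon
    have := Nat.le_findGreatest (P := fun h => tow h ≤ n) h1 hcon
    have h2 : level n + 1 ≤ level n := this
    omega

theorem sq_le_two_pow {n : ℕ} (hn : n ≠ 3) : n ^ 2 ≤ 2 ^ n := by
  rcases Nat.lt_or_ge n 4 with h | h
  · interval_cases n <;> simp_all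
  · induction n, h using Nat.le_induction with
    | base => norm_num
    | succ n hn ih =>
      have := ih (by omega)
      have h2 : (n + 1) ^ 2 ≤ 2 * n ^ 2 := by nlinarith
      calc (n + 1) ^ 2 ≤ 2 * n ^ 2 := h2
        _ ≤ 2 * 2 ^ n := Nat.mul_le_mul_left 2 this
        _ = 2 ^ (n + 1) := by ring

theorem tow_ne_three (n : ℕ) : tow n ≠ 3 := by
  rcases n with _ | n
  · simp [tow]
  · show 2 ^ tow n ≠ 3
    intro h
    have h1 : tow n < 2 := by
      by_contra hc
      have : 2 ^ 2 ≤ 2 ^ tow n := Nat.pow_le_pow_right (by norm_num) (by omega)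
      omega
    interval_cases (tow n) <;> omega

/-- The level goes up by one or two. -/
theorem level_pow {a b : ℕ} (ha : 2 ≤ a) (hab : a < b) :
    level (a ^ b) = level b + 1 ∨ level (a ^ b) = level b + 2 := by
  obtain ⟨h, h1, h2⟩ := exists_level (n := b) (by omega)
  rw [level_eq h1 h2]
  have hlow : tow (h + 1) ≤ a ^ b := by
    calc tow (h + 1) = 2 ^ tow h := rfl
      _ ≤ 2 ^ b := Nat.pow_le_pow_right (by norm_num) h1
      _ ≤ a ^ b := Nat.pow_le_pow_left ha b
  have hup : a ^ b < tow (h + 3) := by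
    have e1 : tow (h + 1) = 2 ^ tow h := rfl
    have h3 : b * tow h < tow (h + 1) ^ 2 := by
      have h4 : tow h ≤ tow (h + 1) := (tow_lt h).le
      have h5 : 0 < tow (h + 1) := lt_of_le_of_lt (Nat.zero_le _) h2
      calc b * tow h ≤ b * tow (h + 1) := Nat.mul_le_mul_left b h4
        _ < tow (h + 1) * tow (h + 1) := Nat.mul_lt_mul_of_pos_right h2 h5
        _ = tow (h + 1) ^ 2 := (sq _).symm
    calc a ^ b ≤ (tow (h + 1)) ^ b := Nat.pow_le_pow_left (by omega) b
      _ = 2 ^ (b * tow h) := by rw [e1, ← pow_mul, mul_comm]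
      _ < 2 ^ (tow (h + 1) ^ 2) := Nat.pow_lt_pow_right (by norm_num) h3
      _ ≤ 2 ^ (2 ^ tow (h + 1)) := Nat.pow_le_pow_right (by norm_num) (sq_le_two_pow (tow_ne_three _))
      _ = tow (h + 3) := rfl
  rcases Nat.lt_or_ge (a ^ b) (tow (h + 2)) with h6 | h6
  · left; exact level_eq hlow h6
  · right; exact level_eq h6 hup

/-- The colouring with three colours. -/
def col (n : ℕ) : Fin 3 := ⟨level n % 3, Nat.mod_lt _ (by norm_num)⟩

theorem col_pow_ne {a b : ℕ} (ha : 2 ≤ a) (hab : a < b) : col (a ^ b) ≠ col b := by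
  intro h
  have h1 : level (a ^ b) % 3 = level b % 3 := congrArg Fin.val h
  rcases level_pow ha hab with h2 | h2 <;> omega

end Pool.Agent.Y351.ExpIP
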