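import Pool.Agent.Y351.ExpIP.Dyn

/-! Type II exponential IP sets: every finite colouring has a monochromatic one. -/

set_option autoImplicit false

namespace Pool.Agent.Y351.ExpIP

open Combinatorics Set

attribute [local instance] Ultrafilter.semigroup Ultrafilter.addSemigroup

/-- An additive idempotent ultrafilter all of whose members are unbounded. -/
theorem exists_idem : ∃ U : Ultrafilter ℕ, U + U = U ∧ ∀ N : ℕ, ∀ᶠ m in U, N < m := by
  obtain ⟨U, hU, hFS⟩ := Hindman.exists_idempotent_ultrafilter_le_FS (M := ℕ) (Stream'.const 1)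
  refine ⟨U, hU, ?_⟩
  have hpos : ∀ᶠ m in U, 0 < m := by
    refine hFS.mono ?_
    intro m hm
    have key : ∀ (a : Stream' ℕ) (m : ℕ), m ∈ Hindman.FS a → (∀ i, 0 < a.get i) → 0 < m := by
      intro a m h
      induction h with
      | head' a => intro h; exact h 0
      | tail' a m _ ih => intro h; exact ih (fun i => h (i + 1))
      | cons' a m _ ih => intro h; exact Nat.add_pos_left (h 0) m
    exact key _ m hm (fun i => by simp)
  intro N
  induction N with
  | zero => exact hpos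
  | succ N ih =>
    rw [← hU, Ultrafilter.eventually_add]
    filter_upwards [ih] with m hm
    filter_upwards [hpos] with m' hm'
    omega

theorem exists_lim {κ : Type} [Finite κ] (U : Ultrafilter ℕ) (f : ℕ → κ) :
    ∃ k, ∀ᶠ m in U, f m = k := by
  obtain ⟨k, hk⟩ := (U.map f).eq_pure_of_finite
  refine ⟨k, ?_⟩
  have h : ({k} : Set κ) ∈ U.map f := by
    rw [hk]; exact Ultrafilter.mem_pure.mpr rfl
  exact h

/-- The combinatorial core: for every finite colouring `c` of the natural numbers there are a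
colour `k` and a set of numbers of colour `k` from which one can extend forever. -/
theorem core {κ : Type} [Finite κ] (c : ℕ → κ) :
    ∃ (k : κ) (G : Set ℕ), (∀ s ∈ G, c s = k) ∧
      ∀ (E : Finset ℕ) (N : ℕ), (∀ s ∈ E, s ∈ G) →
        ∃ t, N < t ∧ t ∈ G ∧ ∀ s ∈ E, t * 2 ^ s ∈ G := by
  classical
  let _ : TopologicalSpace κ := ⊥
  have : DiscreteTopology κ := ⟨rfl⟩
  obtain ⟨U, hU, hbig⟩ := exists_idem
  have hlim : ∀ i : ℕ, ∃ k, ∀ᶠ m in U, c (m * 2 ^ i) = k := fun i => exists_lim U _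
  choose F hF using hlim
  let P : ℕ → Set ℕ := fun n => {m | n < m ∧ ∀ i ∈ Finset.range (n + 1), c (m * 2 ^ i) = F i}
  have hP : ∀ n, ∃ a : Stream' ℕ, Hindman.FS a ⊆ P n := by
    intro n
    refine Hindman.exists_FS_of_large U hU (P n) ?_
    have h1 : ∀ᶠ m in U, n < m := hbig n
    have h2 : ∀ᶠ m in U, ∀ i ∈ Finset.range (n + 1), c (m * 2 ^ i) = F i := by
      rw [Filter.eventually_all_finset]
      intro i _
      exact hF i
    exact h1.and h2
  obtain ⟨W, hW1, hW2⟩ := exists_point F P hP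
  refine ⟨W 0, {s | c s = W 0 ∧ W s = W 0}, fun s hs => hs.1, ?_⟩
  intro E N hE
  obtain ⟨b, hb⟩ := hW1 (E.sup id)
  obtain ⟨m, hm, hmW⟩ := hW2 (E.sup id + b + N)
  have hle : ∀ s ∈ E, s ≤ E.sup id := fun s hs => Finset.le_sup (f := id) hs
  have key : ∀ s, s ≤ E.sup id → W s = W 0 → c (m * 2 ^ (s + b)) = W 0 ∧ W (m * 2 ^ (s + b)) = W 0 := by
    intro s hs hWs
    refine ⟨?_, hmW _ (by omega)⟩
    rw [hm.2 (s + b) (Finset.mem_range.mpr (by omega)), hb s hs, hWs]
  refine ⟨m * 2 ^ b, ?_, ?_, ?_⟩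
  · have h1 : N < m := lt_of_le_of_lt (by omega) hm.1
    exact lt_of_lt_of_le h1 (Nat.le_mul_of_pos_right m (by positivity))
  · have := key 0 (Nat.zero_le _) rfl
    rwa [zero_add] at this
  · intro s hs
    have := key s (hle s hs) (hE s hs).2
    have e : m * 2 ^ b * 2 ^ s = m * 2 ^ (s + b) := by
      rw [pow_add]; ring
    rw [e]
    exact this

/-- An increasing sequence `t` such that all the exponents that occur are in the good set. -/
theorem exists_seq {κ : Type} [Finite κ] (c : ℕ → κ) :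
    ∃ (k : κ) (t : ℕ → ℕ) (E : ℕ → Finset ℕ), StrictMono t ∧ (∀ n, ∀ s ∈ E n, c s = k) ∧
      t 0 ∈ E 0 ∧ ∀ n, E n ⊆ E (n + 1) ∧ t (n + 1) ∈ E (n + 1) ∧
        ∀ s ∈ E n, t (n + 1) * 2 ^ s ∈ E (n + 1) := by
  classical
  obtain ⟨k, G, hG, hstep⟩ := core c
  obtain ⟨t0, -, ht0, -⟩ := hstep ∅ 0 (by simp)
  obtain ⟨V, hV0, hV⟩ := dep_choice (S := {p : ℕ × Finset ℕ // ∀ s ∈ p.2, s ∈ G})
    ⟨(t0, {t0}), by simpa using ht0⟩
    (fun _ U U' => U.1.1 < U'.1.1 ∧ U.1.2 ⊆ U'.1.2 ∧ U'.1.1 ∈ U'.1.2 ∧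
      ∀ s ∈ U.1.2, U'.1.1 * 2 ^ s ∈ U'.1.2)
    (by
      rintro - ⟨⟨t, E⟩, hE⟩
      obtain ⟨t', h1, h2, h3⟩ := hstep E t hE
      refine ⟨⟨(t', insert t' (E ∪ E.image fun s => t' * 2 ^ s)), ?_⟩, h1, ?_, ?_, ?_⟩
      · intro s hs
        rw [Finset.mem_insert, Finset.mem_union, Finset.mem_image] at hs
        rcases hs with rfl | hs | ⟨u, hu, rfl⟩
        · exact h2
        · exact hE s hs
        · exact h3 u hu
      · intro s hs
        exact Finset.mem_insert_of_mem (Finset.mem_union_left _ hs)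
      · exact Finset.mem_insert_self _ _
      · intro s hs
        exact Finset.mem_insert_of_mem (Finset.mem_union_right _ (Finset.mem_image_of_mem _ hs)))
  refine ⟨k, fun n => (V n).1.1, fun n => (V n).1.2, strictMono_nat_of_lt_succ fun n => (hV n).1,
    fun n s hs => hG s ((V n).2 s hs), ?_, fun n => ⟨(hV n).2.1, (hV n).2.2.1, (hV n).2.2.2⟩⟩
  simp [hV0]

end Pool.Agent.Y351.ExpIP
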